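import Pool.Agent.H33.HG1

set_option autoImplicit false

namespace Pool.Agent.Results.MP_b9a716_gt.SuslinCex

open Set Pool.Agent.H33.GrothDefs

theorem result (T : Type) [PartialOrder T] [WellFoundedLT T] [Uncountable T]
    (htree : ∀ t : T, IsChain (· ≤ ·) (Iio t))
    (hchain : ∀ C : Set T, IsChain (· ≤ ·) C → C.Countable)
    (hanti : ∀ A : Set T, IsAntichain (· ≤ ·) A → A.Countable) :
    ∃ (X : Type) (_ : TopologicalSpace X), T35Space X ∧ FirstCountableTopology X ∧
      HereditarilyLindelofSpace X ∧ (∀ Y : Set X, IsGrothendieck Y) ∧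
      ¬ TopologicalSpace.SeparableSpace X :=
  Pool.Agent.H33.HG1.main ⟨inferInstance, htree, inferInstance, hchain, hanti⟩

end Pool.Agent.Results.MP_b9a716_gt.SuslinCex
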